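import Mathlib

/-!
# Subspaces affiliated with a von Neumann algebra
-/

set_option autoImplicit false

open Filter Topology
open scoped ComplexOrder InnerProductSpace

namespace Pool.Agent.Y187.RF

variable {H : Type} [NormedAddCommGroup H] [InnerProductSpace ℂ H] [CompleteSpace H]

theorem proj_comm (K : Submodule ℂ H) [K.HasOrthogonalProjection]
    (T : H →L[ℂ] H) (h1 : ∀ x ∈ K, T x ∈ K) (h2 : ∀ x ∈ K, (star T) x ∈ K) :
    K.starProjection * T = T * K.starProjection := by
  have hid : ∀ x ∈ K, K.starProjection x = x := fun x hx => Submodule.starProjection_eq_self_iff.2 hx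
  have hs : star K.starProjection = K.starProjection := (isSelfAdjoint_starProjection K).star_eq
  have h3 : K.starProjection * (T * K.starProjection) = T * K.starProjection := by
    ext x; exact hid _ (h1 _ (Submodule.starProjection_apply_mem _ _))
  have h4 : K.starProjection * (star T * K.starProjection) = star T * K.starProjection := by
    ext x; exact hid _ (h2 _ (Submodule.starProjection_apply_mem _ _))
  have h5 := congrArg star h4
  rw [star_mul, star_mul, star_star, hs] at h5
  rw [← h3, ← mul_assoc, h5]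

/-- the commutant of a von Neumann algebra, as a set -/
theorem mem_of_comm (M : VonNeumannAlgebra H) (x : H →L[ℂ] H)
    (h : ∀ B : H →L[ℂ] H, (∀ y ∈ M, B * y = y * B) → B * x = x * B) : x ∈ M := by
  have h1 : x ∈ Set.centralizer (Set.centralizer (M : Set (H →L[ℂ] H))) := by
    rw [Set.mem_centralizer_iff]
    intro B hB
    exact h B fun y hy => (Set.mem_centralizer_iff.1 hB y hy).symm
  rw [M.centralizer_centralizer] at h1
  exact h1

/-- the projection onto a closed subspace which is invariant under the commutant of `M` is in `M` -/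
theorem starProjection_mem (M : VonNeumannAlgebra H) (K : Submodule ℂ H)
    [K.HasOrthogonalProjection]
    (hK : ∀ B : H →L[ℂ] H, (∀ y ∈ M, B * y = y * B) → ∀ v ∈ K, B v ∈ K) :
    K.starProjection ∈ M := by
  refine mem_of_comm M _ fun B hB => ?_
  have hB' : ∀ y ∈ M, star B * y = y * star B := by
    intro y hy
    have h1 := congrArg star (hB (star y) (star_mem hy))
    rw [star_mul, star_mul, star_star] at h1
    exact h1.symm
  exact (proj_comm K B (hK B hB) (hK _ hB')).symm

theorem eq_bot_or_top (M : VonNeumannAlgebra H) (T : H →L[ℂ] H)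
    (hT : ∀ P ∈ M, IsStarProjection P → T * P = P * T * P → P = 0 ∨ P = 1)
    (K : Submodule ℂ H) (hc : IsClosed (K : Set H)) (hTK : ∀ v ∈ K, T v ∈ K)
    (hK : ∀ B : H →L[ℂ] H, (∀ y ∈ M, B * y = y * B) → ∀ v ∈ K, B v ∈ K) : K = ⊥ ∨ K = ⊤ := by
  have : CompleteSpace K := hc.completeSpace_coe
  have hid : ∀ x ∈ K, K.starProjection x = x := fun x hx => Submodule.starProjection_eq_self_iff.2 hx
  have h1 := hT K.starProjection (starProjection_mem M K hK) (isStarProjection_starProjection) (by
    ext x
    exact (hid _ (hTK _ (Submodule.starProjection_apply_mem _ _))).symm)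
  rcases h1 with h | h
  · left
    rw [Submodule.eq_bot_iff]
    intro x hx
    rw [← hid x hx, h]
    rfl
  · right
    rw [Submodule.eq_top_iff']
    intro x
    have h2 : K.starProjection x ∈ K := Submodule.starProjection_apply_mem _ _
    rw [h] at h2
    exact h2

/-- quasinilpotency from norm estimates -/
theorem spectrum_zero [Nontrivial H] (T : H →L[ℂ] H)
    (h : ∀ c : ℝ, 0 < c → ∃ N : ℕ, 1 ≤ N ∧ ‖T ^ N‖ ≤ c ^ N) : spectrum ℂ T = {0} := by
  have h0 : spectrum ℂ T ⊆ {0} := by
    intro z hz
    by_contra hz0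
    have hz0 : z ≠ 0 := hz0
    have hzn : 0 < ‖z‖ := norm_pos_iff.2 hz0
    obtain ⟨N, hN, hb⟩ := h (‖z‖ / 2) (by positivity)
    have h1 : z ^ N ∈ spectrum ℂ (T ^ N) := by
      exact (spectrum.pow_image_subset (𝕜 := ℂ) T N) ⟨z, hz, rfl⟩
    have h2 : ‖z ^ N‖ ≤ ‖T ^ N‖ := spectrum.norm_le_norm_of_mem h1
    rw [norm_pow] at h2
    have h3 : (‖z‖ / 2) ^ N < ‖z‖ ^ N := by
      apply pow_lt_pow_left₀ (by linarith) (by positivity) (by omega)
    linarith
  apply Set.Subset.antisymm h0
  obtain ⟨z, hz⟩ := spectrum.nonempty (A := H →L[ℂ] H) T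
  have : z = 0 := h0 hz
  rw [this] at hz
  simpa using hz

end Pool.Agent.Y187.RF
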