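import Mathlib
import Pool.Agent.H728R2.Q77.AFINAL2
import Pool.Agent.H728R2.Q77.ZKillT
import Pool.Agent.H728R2.Q77.CModel
import Pool.Agent.H728R2.Q77.ZRecX
import Pool.Agent.H728R2.Q77.BStep
import Pool.Agent.H728R2.Q77.ZAlg1
import Pool.Agent.H728R2.Q77.AFAC
import Pool.Agent.H728R2.Q77.ABRO

/-!
# A quasinilpotent operator in a II_1 factor without invariant projections in the factor

Assembly of the starting development `H728R2.Q77`.
-/

set_option autoImplicit false

open Filter Topology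
open scoped ComplexOrder InnerProductSpace

namespace Pool.Agent.Y187.RF

open Pool.H711R2 Pool.Agent.H98R2.RR

variable {H : Type} [NormedAddCommGroup H] [InnerProductSpace ℂ H] [CompleteSpace H]

/-- Every tower with a positive gap constant contains an operator without invariant projections. -/
theorem exists_of_tower {M : VonNeumannAlgebra H} {τ : (H →L[ℂ] H) →ₗ[ℂ] ℂ} (T : Tower M τ)
    (hgap : 0 < T.gapc) :
    ∃ A ∈ M, (∀ m : ℕ, 1 ≤ m → τ (A ^ m) = 0) ∧
      (∀ c : ℝ, 0 < c → ∃ N : ℕ, 1 ≤ N ∧ ‖A ^ N‖ ≤ c ^ N) ∧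
      ∀ P ∈ M, IsStarProjection P → A * P = P * A * P → P = 0 ∨ P = 1 := by
  classical
  obtain ⟨Cst, hC0, hK⟩ := KILL728
  have hK' := hK H M τ T hgap
  let Φ : ℕ → (H →L[ℂ] H) → (H →L[ℂ] H) → ℝ := fun k S Si =>
    if h : T.Adm k S Si then
      (hK' k S Si h (1 / ((k : ℝ) + 1)) (by positivity)).choose else 1
  have hΦ : ∀ k S Si, 0 < Φ k S Si := by
    intro k S Si
    by_cases h : T.Adm k S Si
    · have h1 : Φ k S Si = (hK' k S Si h (1 / ((k : ℝ) + 1)) (by positivity)).choose := dif_pos h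
      rw [h1]
      exact (hK' k S Si h (1 / ((k : ℝ) + 1)) (by positivity)).choose_spec.1
    · have h1 : Φ k S Si = 1 := dif_neg h
      rw [h1]; exact one_pos
  obtain ⟨A, hA, hmom, hqn, hAk⟩ := RECX (Pool.Agent.H209R2.ISP.T.STEP ALG) H M τ T Φ hΦ
  refine ⟨A, hA, hmom, hqn, fun P hP hp hPA => ?_⟩
  set D : ℝ := Cst * (1 + T.gapc) with hD
  have hD0 : 0 < D := by positivity
  have hest : ∀ η : ℝ, 0 < η → η ≤ 1 → tr τ P - (tr τ P) ^ 2 ≤ D * η := by
    intro η hη hη1
    apply le_of_forall_pos_le_add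
    intro ε hε
    obtain ⟨k0, y, hy, hny⟩ := T.dense P hP (η ^ 8) (by positivity)
    obtain ⟨n0, hn0⟩ := exists_nat_one_div_lt hε
    set k := max k0 n0 with hk
    have hyk : y ∈ T.B k := by
      have : ∀ m, y ∈ T.B (k0 + m) := by
        intro m
        induction m with
        | zero => exact hy
        | succ m ih => exact T.B_mono _ _ ih
      have h2 := this (k - k0)
      rwa [Nat.add_sub_cancel' (le_max_left _ _)] at h2
    obtain ⟨S, Si, hadm, hinv⟩ := hAk k
    have h1 := hinv P hP hp hPA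
    have h2 : Φ k S Si = (hK' k S Si hadm (1 / ((k : ℝ) + 1)) (by positivity)).choose :=
      dif_pos hadm
    have h3 := (hK' k S Si hadm (1 / ((k : ℝ) + 1)) (by positivity)).choose_spec.2 P hP hp
      (fun z hz => by rw [← h2]; exact h1 z hz) y hyk η hη hη1 hny
    have h4 : 1 / ((k : ℝ) + 1) ≤ ε := by
      refine le_trans ?_ hn0.le
      apply one_div_le_one_div_of_le (by positivity)
      have : (n0 : ℝ) ≤ k := by exact_mod_cast le_max_right _ _
      linarith
    linarith
  have h0 : tr τ P - (tr τ P) ^ 2 ≤ 0 := by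
    by_contra hcon
    have hcon := not_le.1 hcon
    set g := tr τ P - (tr τ P) ^ 2 with hg
    have h1 := hest (min 1 (g / (2 * D))) (by positivity) (min_le_left _ _)
    have h3 : D * min 1 (g / (2 * D)) ≤ D * (g / (2 * D)) :=
      mul_le_mul_of_nonneg_left (min_le_right _ _) hD0.le
    have h4 : D * (g / (2 * D)) = g / 2 := by field_simp
    linarith
  have hn0 : 0 ≤ tr τ P := T.tr.tr_proj_nonneg hP hp
  have hn1 : 0 ≤ tr τ (1 - P) := T.tr.tr_proj_nonneg (vn_sub (vn_one M) hP) hp.one_sub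
  have h1P : tr τ (1 - P) = 1 - tr τ P := by rw [tr_sub, T.tr.tr_one]
  rcases eq_or_lt_of_le hn0 with h | h
  · exact Or.inl (FINAL2_proj_zero T P hP hp h.symm)
  · have h2 : tr τ (1 - P) = 0 := by
      rw [h1P] at hn1 ⊢
      nlinarith
    have h3 := FINAL2_proj_zero T (1 - P) (vn_sub (vn_one M) hP) hp.one_sub h2
    exact Or.inr (sub_eq_zero.1 h3).symm

end Pool.Agent.Y187.RF
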