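import Mathlib
import Pool.Agent.Y187.RF.Rel
import Pool.Agent.Y187.RF.Gen

/-!
# The concrete model: a II_1 factor in standard form on a separable Hilbert space
-/

set_option autoImplicit false

open Filter Topology
open scoped ComplexOrder InnerProductSpace ENNReal

namespace Pool.Agent.Y187.RF

open Pool.H711R2 Pool.Agent.H98R2.RR Pool.Agent.H941R2.CM Pool.Agent.Helper741.GroupVN

theorem countable_P : Countable P := by
  have h1 : (P : Set Circle).Countable := by
    have h2 : (P : Set Circle) = ⋃ k : ℕ, {z : Circle | z ^ (2 ^ k) = 1} := by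
      ext z
      simp only [Set.mem_iUnion, Set.mem_ofPred_eq]
      exact Iff.rfl
    rw [h2]
    refine Set.countable_iUnion fun k => Set.Finite.countable ?_
    have h3 : {z : ℂ | z ^ (2 ^ k) = 1}.Finite := by
      have h4 : {z : ℂ | z ^ (2 ^ k) = 1} ⊆
          ((Polynomial.nthRoots (2 ^ k) (1 : ℂ)).toFinset : Set ℂ) := by
        intro z hz
        rw [Finset.mem_coe, Multiset.mem_toFinset, Polynomial.mem_nthRoots (by positivity)]
        exact hz
      exact (Finset.finite_toSet _).subset h4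
    refine Set.Finite.of_finite_image (f := fun z : Circle => (z : ℂ)) (h3.subset ?_) ?_
    · rintro _ ⟨z, hz, rfl⟩
      show (z : ℂ) ^ (2 ^ k) = 1
      rw [← Circle.coe_pow, show z ^ (2 ^ k) = 1 from hz, Circle.coe_one]
    · intro a _ b _ h
      exact Circle.ext h
  exact h1.to_subtype

theorem countable_G : Countable G := by
  unfold G
  exact inferInstanceAs (Countable (Quot _))

theorem countable_Y : Countable Y := by
  have := countable_P
  have := countable_G
  unfold Y
  infer_instance

theorem separable_Hs : TopologicalSpace.SeparableSpace Hs := by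
  classical
  have := countable_Y
  rw [← TopologicalSpace.isSeparable_univ_iff]
  have h1 : TopologicalSpace.IsSeparable (Set.range fun y : Y => (delta y : Hs)) :=
    (Set.countable_range _).isSeparable
  have h2 := (h1.span (R := ℂ)).closure
  refine h2.mono fun η _ => ?_
  have hsum := lp.hasSum_single (E := fun _ : Y => ℂ) (by norm_num : (2 : ℝ≥0∞) ≠ ⊤) η
  refine mem_closure_of_tendsto hsum (Eventually.of_forall fun s => ?_)
  refine Submodule.sum_mem _ fun y _ => ?_
  have h3 : lp.single (E := fun _ : Y => ℂ) 2 y (η y) = (η y) • (delta y : Hs) := by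
    unfold delta
    ext z
    simp only [lp.single_apply, lp.coeFn_smul, Pi.smul_apply, smul_eq_mul]
    by_cases hz : z = y
    · subst hz
      simp
    · simp [Pi.single_eq_of_ne hz]
  rw [h3]
  exact Submodule.smul_mem _ _ (Submodule.subset_span ⟨y, rfl⟩)

/-- the trace vector is cyclic -/
theorem cyclic_xi (η : Hs) (ε : ℝ) (hε : 0 < ε) : ∃ x ∈ M, ‖η - x xi‖ ≤ ε := by
  obtain ⟨L0, h0⟩ := Apx_all η ε hε
  obtain ⟨y, hy, hxy⟩ := h0 L0 le_rfl
  exact ⟨y, B_sub (A_le_B hy), hxy⟩

theorem separating_xi {x : Hs →L[ℂ] Hs} (hx : x ∈ M) (h : x xi = 0) : x = 0 :=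
  ext_M hx (zero_mem M) (by rw [h]; rfl)

theorem norm_xi : ‖xi‖ = 1 := by
  have h1 : tau (star (1 : Hs →L[ℂ] Hs) * 1) = ((‖(1 : Hs →L[ℂ] Hs) xi‖ ^ 2 : ℝ) : ℂ) :=
    tau_star_self _
  rw [star_one, one_mul, tau_one] at h1
  have h2 : (1 : ℝ) = ‖xi‖ ^ 2 := by
    have h3 : ((1 : ℝ) : ℂ) = ((‖xi‖ ^ 2 : ℝ) : ℂ) := by
      rw [Complex.ofReal_one]
      exact h1
    exact Complex.ofReal_injective h3
  nlinarith [norm_nonneg xi]

end Pool.Agent.Y187.RF
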