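import Mathlib

/-!
# II_1 factors in standard form, and subspaces affiliated with them
-/

set_option autoImplicit false

open Filter Topology
open scoped ComplexOrder InnerProductSpace

namespace Pool.Agent.Y187.RF

variable {H : Type} [NormedAddCommGroup H] [InnerProductSpace ℂ H] [CompleteSpace H]

/-- The von Neumann algebra `M` on `H` is a factor of type II_1 in its standard form, and `ξ` is its trace
vector: `M` has trivial centre and infinite dimension, `x ↦ ⟪ξ, x ξ⟫` is a tracial state on `M`, and `ξ` is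
cyclic and separating for `M`. -/
structure IsIIOneFactor (M : VonNeumannAlgebra H) (ξ : H) : Prop where
  factor : ∀ z ∈ M, (∀ x ∈ M, z * x = x * z) → ∃ c : ℂ, z = c • (1 : H →L[ℂ] H)
  infinite : ¬ FiniteDimensional ℂ M.toStarSubalgebra
  norm_one : ‖ξ‖ = 1
  trace : ∀ x ∈ M, ∀ y ∈ M, ⟪ξ, (x * y) ξ⟫_ℂ = ⟪ξ, (y * x) ξ⟫_ℂ
  separating : ∀ x ∈ M, x ξ = 0 → x = 0
  cyclic : Dense {η : H | ∃ x ∈ M, x ξ = η}

/-- The Brown measure of `T` with respect to the trace vector `ξ` is the point mass at `0`: the logarithm of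
the Fuglede-Kadison determinant of `T - μ`, that is the limit of `τ (log (|T - μ|^2 + ε)) / 2` for `ε → 0+`, is
`log |μ|` for all `μ ≠ 0`. -/
def BrownMeasureAtZero (ξ : H) (T : H →L[ℂ] H) : Prop :=
  ∀ μ : ℂ, μ ≠ 0 → Tendsto (fun ε : ℝ => (⟪ξ, (CFC.log (star (T - μ • (1 : H →L[ℂ] H)) *
    (T - μ • (1 : H →L[ℂ] H)) + (ε : ℂ) • (1 : H →L[ℂ] H))) ξ⟫_ℂ).re / 2)
      (𝓝[>] 0) (𝓝 (Real.log ‖μ‖))

/-- `0` and `1` are the only projections of `M` whose range is invariant under `T`. -/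
def NoInvariantProjection (M : VonNeumannAlgebra H) (T : H →L[ℂ] H) : Prop :=
  ∀ P ∈ M, IsStarProjection P → T * P = P * T * P → P = 0 ∨ P = 1

/-- The only closed subspaces of `H` which are invariant under all operators of the set `𝒮` are `0` and
`H`. -/
def TransitiveSet (𝒮 : Set (H →L[ℂ] H)) : Prop :=
  ∀ K : Submodule ℂ H, IsClosed (K : Set H) → (∀ B ∈ 𝒮, ∀ v ∈ K, B v ∈ K) → K = ⊥ ∨ K = ⊤

/-- The commutant of a set of operators. -/
def comm (𝒮 : Set (H →L[ℂ] H)) : Set (H →L[ℂ] H) := {B | ∀ y ∈ 𝒮, B * y = y * B}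

end Pool.Agent.Y187.RF
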