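import Mathlib
import Pool.Agent.Y187.RF.Defs
import Pool.Agent.Y187.RF.Mod

/-!
# The main theorem on the concrete II_1 factor
-/

set_option autoImplicit false

open Filter Topology
open scoped ComplexOrder InnerProductSpace

namespace Pool.Agent.Y187.RF

open Pool.H711R2 Pool.Agent.H98R2.RR Pool.Agent.H941R2.CM Pool.Agent.Helper741.GroupVN

theorem isIIOne : IsIIOneFactor M xi where
  factor := (FAC Hs M tau tower tower_gapc).1
  infinite := (FAC Hs M tau tower tower_gapc).2
  norm_one := norm_xi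
  trace := fun x hx y hy => normalTrace.trace x hx y hy
  separating := fun _ hx h => separating_xi hx h
  cyclic := by
    rw [Metric.dense_iff]
    intro η r hr
    obtain ⟨x, hx, h⟩ := cyclic_xi η (r / 2) (half_pos hr)
    refine ⟨x xi, ?_, x, hx, rfl⟩
    rw [Metric.mem_ball, dist_comm, dist_eq_norm]
    linarith

theorem nontrivial_Hs : Nontrivial Hs := by
  refine ⟨⟨xi, 0, fun h => ?_⟩⟩
  have := norm_xi
  rw [h, norm_zero] at this
  exact zero_ne_one this

/-- a projection of the tower which is not `0` or `1` -/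
theorem exists_proj : ∃ P ∈ M, IsStarProjection P ∧ P ≠ 0 ∧ P ≠ 1 := by
  have := nontrivial_Hs
  have hU := tower.eMU 1
  have h0 : (0 : ℕ) < 64 ^ 1 := by norm_num
  have h1 : (1 : ℕ) < 64 ^ 1 := by norm_num
  refine ⟨tower.e 1 0 0, tower.B_sub 1 _ (tower.e_mem 1 0 h0 0 h0), ⟨?_, ?_⟩, ?_, ?_⟩
  · show tower.e 1 0 0 * tower.e 1 0 0 = tower.e 1 0 0
    rw [hU.mul 0 h0 0 h0 0 h0 0 h0, if_pos rfl]
  · exact hU.star 0 h0 0 h0
  · intro h
    have hs := hU.sum
    rw [Finset.sum_eq_zero] at hs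
    · exact zero_ne_one hs
    · intro i hi
      have hi' := Finset.mem_range.1 hi
      have e1 : tower.e 1 i 0 * tower.e 1 0 i = tower.e 1 i i := by
        rw [hU.mul i hi' 0 h0 0 h0 i hi', if_pos rfl]
      have e2 : tower.e 1 0 0 * tower.e 1 0 i = tower.e 1 0 i := by
        rw [hU.mul 0 h0 0 h0 0 h0 i hi', if_pos rfl]
      rw [← e1, ← e2, h, zero_mul, mul_zero]
  · intro h
    have e1 : tower.e 1 0 0 * tower.e 1 1 1 = 0 := by
      rw [hU.mul 0 h0 0 h0 1 h1 1 h1, if_neg (by norm_num)]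
    have e2 : tower.e 1 0 1 * tower.e 1 1 0 = tower.e 1 0 0 := by
      rw [hU.mul 0 h0 1 h1 1 h1 0 h0, if_pos rfl]
    have e3 : tower.e 1 1 1 * tower.e 1 1 0 = tower.e 1 1 0 := by
      rw [hU.mul 1 h1 1 h1 1 h1 0 h0, if_pos rfl]
    rw [h, one_mul] at e1
    rw [e1, zero_mul] at e3
    rw [← e3, mul_zero, h] at e2
    exact zero_ne_one e2

/-- the operator -/
theorem exists_T : ∃ T ∈ M, T ≠ 0 ∧ spectrum ℂ T = {0} ∧
    (∀ m : ℕ, 1 ≤ m → ⟪xi, (T ^ m) xi⟫_ℂ = 0) ∧
    BrownMeasureAtZero xi T ∧ NoInvariantProjection M T := by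
  have := nontrivial_Hs
  obtain ⟨A, hA, hmom, hqn, hP⟩ := exists_of_tower tower tower_gapc
  refine ⟨A, hA, ?_, spectrum_zero A hqn, hmom,
    fun μ hμ => BRO Hs M tau normalTrace A hA hmom hqn μ hμ, hP⟩
  rintro rfl
  obtain ⟨P, hP1, hP2, hP3, hP4⟩ := exists_proj
  rcases hP P hP1 hP2 (by rw [zero_mul, mul_zero, zero_mul]) with h | h
  · exact hP3 h
  · exact hP4 h

section general

variable {H : Type} [NormedAddCommGroup H] [InnerProductSpace ℂ H] [CompleteSpace H]

/-- a nonzero quasinilpotent operator is not normal. -/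
theorem not_normal {T : H →L[ℂ] H} (h0 : T ≠ 0) (hs : spectrum ℂ T = {0}) : ¬ IsStarNormal T := by
  intro hn
  apply h0
  have h2 := hn.spectralRadius_eq_nnnorm
  have h3 : spectralRadius ℂ T = 0 := by
    unfold spectralRadius
    rw [hs]
    simp
  rw [h3] at h2
  have h4 : ‖T‖₊ = 0 := by exact_mod_cast h2.symm
  exact nnnorm_eq_zero.1 h4

/-- transfer of the property to another representation of the algebra -/
theorem noInvariantProjection_iso {M : VonNeumannAlgebra H} {T : H →L[ℂ] H} (hTM : T ∈ M)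
    (hT : NoInvariantProjection M T) {K : Type} [NormedAddCommGroup K] [InnerProductSpace ℂ K]
    [CompleteSpace K] (N : VonNeumannAlgebra K) (ρ : M.toStarSubalgebra ≃⋆ₐ[ℂ] N.toStarSubalgebra) :
    NoInvariantProjection N (ρ ⟨T, hTM⟩ : K →L[ℂ] K) := by
  intro P hP hPp hTP
  obtain ⟨p, hp⟩ : ∃ p, ρ p = ⟨P, hP⟩ := EquivLike.surjective ρ ⟨P, hP⟩
  have e1 : p * p = p := by
    apply EquivLike.injective ρ
    rw [map_mul, hp]
    exact Subtype.ext hPp.1
  have e2 : star p = p := by
    apply EquivLike.injective ρ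
    rw [map_star ρ p, hp]
    exact Subtype.ext hPp.2
  have e3 : (⟨T, hTM⟩ : M.toStarSubalgebra) * p = p * ⟨T, hTM⟩ * p := by
    apply EquivLike.injective ρ
    rw [map_mul, map_mul, map_mul, hp]
    exact Subtype.ext hTP
  rcases hT p.1 p.2 ⟨congrArg Subtype.val e1, congrArg Subtype.val e2⟩ (congrArg Subtype.val e3) with
    h | h
  · left
    have h4 : p = 0 := Subtype.ext h
    rw [h4, map_zero] at hp
    exact (congrArg Subtype.val hp).symm
  · right
    have h4 : p = 1 := Subtype.ext h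
    rw [h4, map_one] at hp
    exact (congrArg Subtype.val hp).symm

/-- the operator and the commutant of the algebra have no common invariant subspaces. -/
theorem transitive_comm (M : VonNeumannAlgebra H) (T : H →L[ℂ] H)
    (hT : NoInvariantProjection M T) (𝒮 : Set (H →L[ℂ] H)) (h1 : T ∈ 𝒮)
    (h2 : comm (M : Set (H →L[ℂ] H)) ⊆ 𝒮) : TransitiveSet 𝒮 := fun K hc hK =>
  eq_bot_or_top M T hT K hc (hK T h1) fun B hB => hK B (h2 hB)

end general

end Pool.Agent.Y187.RF
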