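import Mathlib
import Pool.Agent.Y187.RF.Main

/-!
# The relative invariant subspace problem: final form
-/

set_option autoImplicit false

open Filter Topology
open scoped ComplexOrder InnerProductSpace

namespace Pool.Agent.Y187.RF

variable {H : Type} [NormedAddCommGroup H] [InnerProductSpace ℂ H] [CompleteSpace H]

/-- The closed subspace `K` is affiliated with `M`: it is the range of a projection of `M`. -/
def Affiliated (M : VonNeumannAlgebra H) (K : Submodule ℂ H) : Prop :=
  ∃ P ∈ M, IsStarProjection P ∧ ∀ v : H, v ∈ K ↔ P v = v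

theorem affiliated_trivial {M : VonNeumannAlgebra H} {T : H →L[ℂ] H}
    (hT : NoInvariantProjection M T) (K : Submodule ℂ H) (hK : ∀ v ∈ K, T v ∈ K)
    (hM : Affiliated M K) : K = ⊥ ∨ K = ⊤ := by
  obtain ⟨P, hP, hp, hv⟩ := hM
  rcases hT P hP hp (by
    ext x
    have h1 : P (P x) = P x := by
      have := congrArg (fun A : H →L[ℂ] H => A x) hp.1
      exact this
    exact ((hv _).1 (hK _ ((hv _).2 h1))).symm) with h | h
  · left
    rw [Submodule.eq_bot_iff]
    intro x hx
    rw [← (hv x).1 hx, h]
    rfl
  · right
    rw [Submodule.eq_top_iff']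
    intro x
    rw [hv x, h]
    rfl

/-- `T` has no nontrivial hyperinvariant subspaces -/
theorem no_hyperinvariant {M : VonNeumannAlgebra H} {T : H →L[ℂ] H} (hTM : T ∈ M)
    (hT : NoInvariantProjection M T) : TransitiveSet (comm {T}) := by
  refine transitive_comm M T hT _ ?_ ?_
  · intro y hy
    rw [Set.mem_singleton_iff.1 hy]
  · intro B hB y hy
    rw [Set.mem_singleton_iff.1 hy]
    exact hB T hTM

end Pool.Agent.Y187.RF
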